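import Pool.Agent.helper62.DP7.Spec

/-!
# DEG: the degree in the square
-/

set_option autoImplicit false

namespace Pool.Agent.helper62.DP7

open Finset

theorem DEG : DEG_stmt := by
  classical
  intro V G A z hz
  have hsub : qn G A A z ⊆ (nb G A z).biUnion fun y => insert y ((nb G A y).erase z) := by
    intro x hx
    rw [mem_qn] at hx
    obtain ⟨hxA, hne, h⟩ := hx
    rw [mem_biUnion]
    rcases h with h | ⟨c, hc, h1, h2⟩
    · exact ⟨x, mem_nb.2 ⟨hxA, h⟩, mem_insert_self _ _⟩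
    · refine ⟨c, mem_nb.2 ⟨hc, h1⟩, mem_insert_of_mem (mem_erase.2 ⟨hne.symm, mem_nb.2 ⟨hxA, h2⟩⟩)⟩
  refine (card_le_card hsub).trans (card_biUnion_le.trans (sum_le_sum ?_))
  intro y hy
  rw [mem_nb] at hy
  have hzy : z ∈ nb G A y := mem_nb.2 ⟨hz, hy.2.symm⟩
  have h1 := card_insert_le y ((nb G A y).erase z)
  rw [card_erase_add_one hzy] at h1
  exact h1

end Pool.Agent.helper62.DP7
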